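import Pool.Agent.Q264.QuadF

/-!
# Coloured 4-ary partitions: the digit recursion in the binomial basis
-/

set_option autoImplicit false

namespace Q279.F4

open PowerSeries Finset

/-- the section `∑ f (4 r + c) x ^ r` -/
noncomputable def sec (c : ℕ) (f : PowerSeries ℤ) : PowerSeries ℤ := PowerSeries.mk fun r => coeff (4 * r + c) f

theorem sec_decomp (f : PowerSeries ℤ) :
    f = Q264.Quad.E (sec 0 f) + X * Q264.Quad.E (sec 1 f) + X ^ 2 * Q264.Quad.E (sec 2 f)
      + X ^ 3 * Q264.Quad.E (sec 3 f) := by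
  ext n
  obtain ⟨q, c, hc, rfl⟩ : ∃ q c, c < 4 ∧ n = 4 * q + c := ⟨n / 4, n % 4, Nat.mod_lt _ (by norm_num), by omega⟩
  rw [map_add, map_add, map_add]
  have h1 : ∀ (g : PowerSeries ℤ) (j : ℕ), j < 4 → coeff (4 * q + c) (X ^ j * Q264.Quad.E g)
      = if j = c then coeff q g else 0 := by
    intro g j hj
    rw [coeff_X_pow_mul']
    split_ifs with h2 h3 h3
    · subst h3
      rw [Nat.add_sub_cancel, Q264.Quad.E, coeff_expand, if_pos (dvd_mul_right _ _),
        Nat.mul_div_cancel_left _ (by norm_num)]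
    · rw [Q264.Quad.E, coeff_expand, if_neg]
      intro h4
      omega
    · omega
    · rfl
  have e0 := h1 (sec 0 f) 0 (by norm_num)
  have e1 := h1 (sec 1 f) 1 (by norm_num)
  have e2 := h1 (sec 2 f) 2 (by norm_num)
  have e3 := h1 (sec 3 f) 3 (by norm_num)
  rw [pow_zero, one_mul] at e0
  rw [pow_one] at e1
  rw [e0, e1, e2, e3]
  unfold sec
  simp only [coeff_mk]
  interval_cases c <;> simp

theorem sec_add (c : ℕ) (f g : PowerSeries ℤ) : sec c (f + g) = sec c f + sec c g := by
  ext n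
  simp [sec]

theorem sec_shift (c j : ℕ) (hc : c < 4) (hj : j < 4) (g : PowerSeries ℤ) :
    sec c (X ^ j * Q264.Quad.E g) = if j = c then g else 0 := by
  ext q
  unfold sec
  rw [coeff_mk, coeff_X_pow_mul']
  by_cases h1 : j = c
  · subst h1
    rw [if_pos (by omega), if_pos rfl, Nat.add_sub_cancel, Q264.Quad.E, coeff_expand, if_pos (dvd_mul_right _ _),
      Nat.mul_div_cancel_left _ (by norm_num)]
  · rw [if_neg h1, map_zero]
    split_ifs with h2
    · rw [Q264.Quad.E, coeff_expand, if_neg]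
      intro h4
      omega
    · rfl

theorem sec_mul_expand (c : ℕ) (hc : c < 4) (f h : PowerSeries ℤ) :
    sec c (f * Q264.Quad.E h) = sec c f * h := by
  have e : f * Q264.Quad.E h = X ^ 0 * Q264.Quad.E (sec 0 f * h) + X ^ 1 * Q264.Quad.E (sec 1 f * h)
      + X ^ 2 * Q264.Quad.E (sec 2 f * h) + X ^ 3 * Q264.Quad.E (sec 3 f * h) := by
    conv_lhs => rw [sec_decomp f]
    unfold Q264.Quad.E
    rw [map_mul, map_mul, map_mul, map_mul]
    ring
  rw [e, sec_add, sec_add, sec_add, sec_shift c 0 hc (by norm_num), sec_shift c 1 hc (by norm_num),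
    sec_shift c 2 hc (by norm_num), sec_shift c 3 hc (by norm_num)]
  interval_cases c <;> simp

/-- binomial transform -/
noncomputable def EV (g : PowerSeries ℤ) : PowerSeries ℤ :=
  PowerSeries.mk fun r => ∑ j ∈ range (r + 1), coeff j g * (r.choose j : ℤ)

theorem EV_add (f g : PowerSeries ℤ) : EV (f + g) = EV f + EV g := by
  ext n
  simp [EV, add_mul, Finset.sum_add_distrib]

theorem EV_C_mul (a : ℤ) (g : PowerSeries ℤ) : EV (C a * g) = C a * EV g := by
  ext n
  simp only [EV, coeff_mk, coeff_C_mul, Finset.mul_sum]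
  exact Finset.sum_congr rfl fun _ _ => by ring

theorem EV_X (g : PowerSeries ℤ) : (1 - X) * EV (X * g) = X * EV g := by
  ext n
  rw [sub_mul, one_mul, map_sub]
  rcases n with _ | r
  · simp [EV]
  · rw [coeff_succ_X_mul, coeff_succ_X_mul]
    unfold EV
    simp only [coeff_mk]
    rw [Finset.sum_range_succ' (fun j => coeff j (X * g) * ((r + 1).choose j : ℤ)),
      Finset.sum_range_succ' (fun j => coeff j (X * g) * (r.choose j : ℤ))]
    simp only [coeff_succ_X_mul, coeff_zero_X_mul, zero_mul, add_zero]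
    rw [Finset.sum_range_succ (fun j => coeff j g * (r.choose j : ℤ)),
      Finset.sum_range_succ (fun j => coeff j g * ((r + 1).choose (j + 1) : ℤ)), Nat.choose_self, Nat.choose_self]
    have h : ∀ j, ((r + 1).choose (j + 1) : ℤ) = (r.choose j : ℤ) + (r.choose (j + 1) : ℤ) := by
      intro j
      exact_mod_cast Nat.choose_succ_succ r j
    simp only [h, mul_add, Finset.sum_add_distrib]
    ring

/-- `(1 - y ^ 4) / (1 - y) ^ 4` in terms of `s = y / (1 - y)` -/
noncomputable def u : PowerSeries ℤ := 1 + C 4 * X + C 6 * X ^ 2 + C 4 * X ^ 3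

theorem EV_u (g : PowerSeries ℤ) : (1 - X) ^ 4 * EV (u * g) = (1 - X ^ 4) * EV g := by
  have e : u * g = g + C 4 * (X * g) + C 6 * (X * (X * g)) + C 4 * (X * (X * (X * g))) := by
    unfold u
    ring
  rw [e, EV_add, EV_add, EV_add, EV_C_mul, EV_C_mul, EV_C_mul]
  have h1 := EV_X g
  have h2 := EV_X (X * g)
  have h3 := EV_X (X * (X * g))
  have c4 : (C 4 : PowerSeries ℤ) = 4 := map_ofNat C 4
  have c6 : (C 6 : PowerSeries ℤ) = 6 := map_ofNat C 6
  rw [c4, c6]
  linear_combination (4 * (1 - X) ^ 3 + 6 * (1 - X) ^ 2 * X + 4 * (1 - X) * X ^ 2) * h1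
    + (6 * (1 - X) ^ 3 + 4 * (1 - X) ^ 2 * X) * h2 + 4 * (1 - X) ^ 3 * h3

theorem EV_u_pow (m : ℕ) (g : PowerSeries ℤ) :
    ((1 - X) ^ 4) ^ m * EV (u ^ m * g) = (1 - X ^ 4) ^ m * EV g := by
  induction m with
  | zero => simp
  | succ m ih =>
    have h := EV_u (u ^ m * g)
    rw [pow_succ, pow_succ u, pow_succ (1 - X ^ 4 : PowerSeries ℤ)]
    rw [show u ^ m * u * g = u * (u ^ m * g) by ring]
    linear_combination ((1 - X) ^ 4) ^ m * h + (1 - X ^ 4) * ih

/-- coefficient of `t ^ j` in `(1 + t) ^ c ((1 + t) ^ 4 - 1) ^ i` -/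
def th (c : ℕ) : ℕ → ℕ → ℕ
  | 0, j => c.choose j
  | _ + 1, 0 => 0
  | i + 1, 1 => 4 * th c i 0
  | i + 1, 2 => 4 * th c i 1 + 6 * th c i 0
  | i + 1, 3 => 4 * th c i 2 + 6 * th c i 1 + 4 * th c i 0
  | i + 1, j + 4 => 4 * th c i (j + 3) + 6 * th c i (j + 2) + 4 * th c i (j + 1) + th c i j

theorem th_big (c i : ℕ) : ∀ j, 4 * i + c < j → th c i j = 0 := by
  induction i with
  | zero =>
    intro j hj
    unfold th
    exact Nat.choose_eq_zero_of_lt (by omega)
  | succ i ih =>
    intro j hj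
    obtain ⟨k, rfl⟩ : ∃ k, j = k + 4 := ⟨j - 4, by omega⟩
    unfold th
    rw [ih _ (by omega), ih _ (by omega), ih _ (by omega), ih _ (by omega)]

theorem sum_pascal (r : ℕ) (t : ℕ → ℤ) : ∑ i ∈ range (r + 2), ((r + 1).choose i : ℤ) * t i =
    ∑ i ∈ range (r + 1), (r.choose i : ℤ) * (t i + t (i + 1)) := by
  rw [Finset.sum_range_succ' (fun i => ((r + 1).choose i : ℤ) * t i)]
  have h : ∀ j, ((r + 1).choose (j + 1) : ℤ) = (r.choose j : ℤ) + (r.choose (j + 1) : ℤ) := by
    intro j
    exact_mod_cast Nat.choose_succ_succ r j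
  simp only [h, add_mul, mul_add, Finset.sum_add_distrib]
  have h2 : ∑ i ∈ range (r + 1), (r.choose (i + 1) : ℤ) * t (i + 1) + ((r + 1).choose 0 : ℤ) * t 0
      = ∑ i ∈ range (r + 1), (r.choose i : ℤ) * t i := by
    rw [Finset.sum_range_succ' (fun i => (r.choose i : ℤ) * t i), Finset.sum_range_succ, Nat.choose_succ_self]
    simp
  linarith

theorem sum_th (c r : ℕ) : ∀ j, ∑ i ∈ range (r + 1), (r.choose i : ℤ) * (th c i j : ℤ) = ((4 * r + c).choose j : ℤ) := by
  induction r with
  | zero => intro j; simp [th]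
  | succ r ih =>
    have key : ∀ j, ∑ i ∈ range (r + 1 + 1), ((r + 1).choose i : ℤ) * (th c i j : ℤ)
        = ((4 * r + c).choose j : ℤ) + ∑ i ∈ range (r + 1), (r.choose i : ℤ) * (th c (i + 1) j : ℤ) := by
      intro j
      rw [sum_pascal r (fun i => (th c i j : ℤ))]
      simp only [mul_add, Finset.sum_add_distrib]
      rw [ih j]
    have e : 4 * (r + 1) + c = (4 * r + c) + 4 := by ring
    intro j
    rw [key j, e]
    set n := 4 * r + c with hn
    have hc : ∀ a b : ℕ, ((a + 1).choose (b + 1) : ℤ) = (a.choose b : ℤ) + (a.choose (b + 1) : ℤ) := by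
      intro a b
      exact_mod_cast Nat.choose_succ_succ a b
    rcases j with _ | _ | _ | _ | j
    · simp [th]
    · simp only [th, zero_add, Nat.cast_mul, Nat.cast_ofNat]
      have e1 : ∑ i ∈ range (r + 1), (r.choose i : ℤ) * (4 * (th c i 0 : ℤ)) = 4 * ((4 * r + c).choose 0 : ℤ) := by
        rw [← ih 0, Finset.mul_sum]
        exact Finset.sum_congr rfl fun _ _ => by ring
      rw [e1]
      simp
    · have e1 : ∑ i ∈ range (r + 1), (r.choose i : ℤ) * (th c (i + 1) (0 + 1 + 1) : ℤ)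
          = 4 * (n.choose 1 : ℤ) + 6 * (n.choose 0 : ℤ) := by
        rw [← ih 0, ← ih 1, Finset.mul_sum, Finset.mul_sum, ← Finset.sum_add_distrib]
        refine Finset.sum_congr rfl fun _ _ => ?_
        simp only [th]
        push_cast
        ring
      rw [e1]
      simp only [hc, zero_add, Nat.choose_zero_right, Nat.cast_one]
      ring
    · have e1 : ∑ i ∈ range (r + 1), (r.choose i : ℤ) * (th c (i + 1) (0 + 1 + 1 + 1) : ℤ)
          = 4 * (n.choose 2 : ℤ) + 6 * (n.choose 1 : ℤ) + 4 * (n.choose 0 : ℤ) := by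
        rw [← ih 0, ← ih 1, ← ih 2, Finset.mul_sum, Finset.mul_sum, Finset.mul_sum, ← Finset.sum_add_distrib,
          ← Finset.sum_add_distrib]
        refine Finset.sum_congr rfl fun _ _ => ?_
        simp only [th]
        push_cast
        ring
      rw [e1]
      simp only [hc, zero_add, Nat.choose_zero_right, Nat.cast_one]
      ring
    · have e1 : ∑ i ∈ range (r + 1), (r.choose i : ℤ) * (th c (i + 1) (j + 1 + 1 + 1 + 1) : ℤ)
          = 4 * (n.choose (j + 3) : ℤ) + 6 * (n.choose (j + 2) : ℤ) + 4 * (n.choose (j + 1) : ℤ)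
            + (n.choose j : ℤ) := by
        rw [← ih j, ← ih (j + 1), ← ih (j + 2), ← ih (j + 3), Finset.mul_sum, Finset.mul_sum, Finset.mul_sum,
          ← Finset.sum_add_distrib, ← Finset.sum_add_distrib, ← Finset.sum_add_distrib]
        refine Finset.sum_congr rfl fun _ _ => ?_
        simp only [th]
        push_cast
        ring
      rw [e1]
      simp only [hc]
      ring

/-- the digit operator in the binomial basis -/
noncomputable def Th (c : ℕ) (g : PowerSeries ℤ) : PowerSeries ℤ :=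
  PowerSeries.mk fun i => ∑ j ∈ range (4 * i + c + 1), coeff j g * (th c i j : ℤ)

theorem coeff_Th (c i : ℕ) (g : PowerSeries ℤ) :
    coeff i (Th c g) = ∑ j ∈ range (4 * i + c + 1), coeff j g * (th c i j : ℤ) := by
  simp [Th]

theorem coeff_Th' (c i N : ℕ) (hN : 4 * i + c + 1 ≤ N) (g : PowerSeries ℤ) :
    coeff i (Th c g) = ∑ j ∈ range N, coeff j g * (th c i j : ℤ) := by
  rw [coeff_Th]
  refine Finset.sum_subset (Finset.range_subset_range.2 hN) fun j _ hj => ?_
  rw [Finset.mem_range, not_lt] at hj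
  rw [th_big c i j (by omega), Nat.cast_zero, mul_zero]

theorem Th_add (c : ℕ) (f g : PowerSeries ℤ) : Th c (f + g) = Th c f + Th c g := by
  ext n
  simp [coeff_Th, add_mul, Finset.sum_add_distrib]

theorem Th_C_mul (c : ℕ) (a : ℤ) (g : PowerSeries ℤ) : Th c (C a * g) = C a * Th c g := by
  ext n
  simp only [coeff_Th, coeff_C_mul, Finset.mul_sum]
  exact Finset.sum_congr rfl fun _ _ => by ring

theorem EV_Th (c : ℕ) (g : PowerSeries ℤ) : EV (Th c g) = sec c (EV g) := by
  ext r
  unfold EV sec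
  rw [coeff_mk, coeff_mk, coeff_mk]
  have e : ∀ i ∈ range (r + 1), coeff i (Th c g) * (r.choose i : ℤ)
      = ∑ j ∈ range (4 * r + c + 1), coeff j g * ((r.choose i : ℤ) * (th c i j : ℤ)) := by
    intro i hi
    rw [Finset.mem_range] at hi
    rw [coeff_Th' c i (4 * r + c + 1) (by omega), Finset.sum_mul]
    exact Finset.sum_congr rfl fun _ _ => by ring
  rw [Finset.sum_congr rfl e, Finset.sum_comm]
  refine Finset.sum_congr rfl fun j _ => ?_
  rw [← Finset.mul_sum, sum_th]

/-- the state after reading the digits of `N` -/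
def St (m N b : ℕ) (G : PowerSeries ℤ) : Prop :=
  (PowerSeries.mk fun r => coeff (N + 4 ^ b * r) (Q264.Quad.F ^ m)) = EV G * Q264.Quad.F ^ m

theorem St_step {m N b : ℕ} {G : PowerSeries ℤ} (h : St m N b G) (c : ℕ) (hc : c < 4) :
    St m (N + 4 ^ b * c) (b + 1) (Th c (u ^ m * G)) := by
  unfold St at *
  set H := Q264.Quad.F ^ m with hH
  have h1 : (PowerSeries.mk fun r => coeff (N + 4 ^ b * c + 4 ^ (b + 1) * r) H)
      = sec c (PowerSeries.mk fun r => coeff (N + 4 ^ b * r) H) := by
    ext r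
    unfold sec
    rw [coeff_mk, coeff_mk, coeff_mk]
    congr 2
    rw [pow_succ]
    ring
  have h2 : H * ((1 - X) ^ 4) ^ m = (1 - X ^ 4) ^ m * Q264.Quad.E H := by
    rw [hH, ← mul_pow, Q264.Quad.F_eq, mul_pow, Q264.Quad.E, Q264.Quad.E, map_pow]
  have h3 : EV G * H = EV (u ^ m * G) * Q264.Quad.E H := by
    have h4 := EV_u_pow m G
    have h5 : (((1 - X) ^ 4) ^ m : PowerSeries ℤ) ≠ 0 := by
      refine pow_ne_zero _ (pow_ne_zero _ ?_)
      intro h6
      have := congrArg (constantCoeff (R := ℤ)) h6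
      simp at this
    refine mul_left_cancel₀ h5 ?_
    linear_combination EV G * h2 - Q264.Quad.E H * h4
  rw [h1, h, h3, sec_mul_expand c hc, EV_Th]

theorem St_congr {m N b : ℕ} {G G' : PowerSeries ℤ} (h : St m N b G) (he : EV G = EV G') : St m N b G' := by
  unfold St at *
  rw [← he]
  exact h

/-- `1 / (1 + s)` -/
noncomputable def J : PowerSeries ℤ := PowerSeries.mk fun n => (-1) ^ n

theorem J_mul : (1 + X) * J = 1 := by
  ext n
  rw [add_mul, one_mul, map_add]
  rcases n with _ | n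
  · simp [J]
  · rw [coeff_succ_X_mul, J, coeff_mk, coeff_mk, coeff_one, if_neg (by omega), pow_succ]
    ring

theorem EV_one : (1 - X) * EV 1 = 1 := by
  have h : EV 1 = PowerSeries.mk fun _ => (1 : ℤ) := by
    ext n
    unfold EV
    rw [coeff_mk, coeff_mk, Finset.sum_eq_single 0]
    · simp
    · intro j _ hj
      rw [coeff_one, if_neg hj, zero_mul]
    · intro h
      simp at h
  rw [h]
  ext n
  rw [sub_mul, one_mul, map_sub]
  rcases n with _ | n
  · simp
  · rw [coeff_succ_X_mul, coeff_mk, coeff_mk, coeff_one, if_neg (by omega)]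
    ring

theorem EV_J : EV J = 1 := by
  have h1 := EV_X J
  have h2 := EV_one
  have h3 : EV 1 = EV J + EV (X * J) := by
    rw [← EV_add, ← J_mul]
    congr 1
    ring
  rw [h3] at h2
  linear_combination h2 - h1

theorem sec_one (c : ℕ) : sec c 1 = if c = 0 then 1 else 0 := by
  ext r
  unfold sec
  rw [coeff_mk, coeff_one]
  split_ifs with h1 h2 h2
  · subst h2
    have : r = 0 := by omega
    subst this
    simp
  · omega
  · subst h2
    rw [coeff_one, if_neg (by omega)]
  · simp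

theorem St_zero (m : ℕ) : St m 0 0 J := by
  unfold St
  rw [EV_J, one_mul]
  ext n
  simp

/-- the first coefficient -/
theorem St_coeff {m N b : ℕ} {G : PowerSeries ℤ} (h : St m N b G) : Q264.Quad.SZ m N = coeff 0 G := by
  unfold St at h
  have h1 := congrArg (coeff 0) h
  rw [coeff_mk, mul_zero, add_zero, Q264.Quad.F_pow] at h1
  rw [h1, coeff_zero_eq_constantCoeff_apply, map_mul, map_pow, Q264.Quad.F_zero, one_pow, mul_one,
    ← coeff_zero_eq_constantCoeff_apply]
  simp [EV]

end Q279.F4
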