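import Pool.Agent.Q279.F4.Val

/-!
# Coloured 4-ary partitions: the initial states, computed modulo `256`
-/

set_option autoImplicit false

namespace Q279.F4

open PowerSeries Finset

/-- the first fourteen coefficients modulo `256` -/
def Rp (l : List ℕ) (g : PowerSeries ℤ) : Prop :=
  ∀ n < 14, ((coeff n g : ℤ) : ZMod 256) = ((l.getD n 0 : ℕ) : ZMod 256)

def mulT (a b : List ℕ) : List ℕ :=
  (List.range 14).map fun n => (∑ k ∈ range (n + 1), a.getD k 0 * b.getD (n - k) 0) % 256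

def addT (a b : List ℕ) : List ℕ := (List.range 14).map fun n => (a.getD n 0 + b.getD n 0) % 256

def thT (c : ℕ) (a : List ℕ) : List ℕ :=
  (List.range 4).map fun i => (∑ j ∈ range (4 * i + c + 1), a.getD j 0 * th c i j) % 256

theorem getD_map_range (N n : ℕ) (f : ℕ → ℕ) : ((List.range N).map f).getD n 0 = if n < N then f n else 0 := by
  by_cases h : n < N
  · rw [if_pos h, List.getD_eq_getElem _ _ (by simpa using h)]
    simp
  · rw [if_neg h, List.getD_eq_default _ _ (by simpa using h)]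

theorem Rp.mul {a b : List ℕ} {f g : PowerSeries ℤ} (hf : Rp a f) (hg : Rp b g) : Rp (mulT a b) (f * g) := by
  intro n hn
  unfold mulT
  rw [getD_map_range, if_pos hn, coeff_mul, Finset.Nat.sum_antidiagonal_eq_sum_range_succ_mk, ZMod.natCast_mod]
  push_cast
  refine Finset.sum_congr rfl fun k hk => ?_
  rw [Finset.mem_range] at hk
  rw [hf k (by omega), hg (n - k) (by omega)]

theorem Rp.mul' (a b c : List ℕ) (f g h : PowerSeries ℤ) (hf : Rp a f) (hg : Rp b g) (hh : f * g = h)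
    (hc : mulT a b = c) : Rp c h := by
  rw [← hh, ← hc]
  exact hf.mul hg

theorem Rp.add {a b : List ℕ} {f g : PowerSeries ℤ} (hf : Rp a f) (hg : Rp b g) : Rp (addT a b) (f + g) := by
  intro n hn
  unfold addT
  rw [getD_map_range, if_pos hn, map_add, ZMod.natCast_mod]
  push_cast
  rw [hf n hn, hg n hn]

theorem Rp.th {a : List ℕ} {g : PowerSeries ℤ} (hg : Rp a g) (hd : Dv eW g) (c : ℕ) (hc : c ≤ 1) :
    Rp (thT c a) (Th c g) := by
  intro n hn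
  unfold thT
  rw [getD_map_range]
  split_ifs with h
  · rw [ZMod.natCast_mod, coeff_Th]
    push_cast
    refine Finset.sum_congr rfl fun k hk => ?_
    rw [Finset.mem_range] at hk
    rw [hg k (by omega)]
  · rw [Nat.cast_zero, ZMod.intCast_zmod_eq_zero_iff_dvd]
    refine dvd_trans ?_ (hd.Th_W c n)
    unfold eV
    rw [if_neg (by omega)]
    exact pow_dvd_pow 2 (show 8 ≤ 2 * n + 1 by omega)

def jl : List ℕ := [1, 255, 1, 255, 1, 255, 1, 255, 1, 255, 1, 255, 1, 255]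

def nl : List ℕ := [255, 1, 255, 1, 255, 1, 255, 1, 255, 1, 255, 1, 255, 1]

theorem rp_J : Rp jl J := by
  intro n hn
  unfold J jl
  rw [coeff_mk]
  interval_cases n <;> decide +kernel

theorem rp_nJ : Rp nl (-J) := by
  intro n hn
  unfold J nl
  rw [map_neg, coeff_mk]
  interval_cases n <;> decide +kernel

/-- `(u ^ m - 1) / (1 + s)` -/
noncomputable def W (m : ℕ) : PowerSeries ℤ := u ^ m * J + -J

noncomputable def w : PowerSeries ℤ := C 8 * X + C 20 * X ^ 2 + C 36 * X ^ 3 + C 32 * X ^ 4 + C 16 * X ^ 5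

theorem Dv_w : Dv eW w := by
  intro n
  unfold w
  simp only [map_add, coeff_C_mul, coeff_X_pow, coeff_X]
  rcases (show n = 0 ∨ n = 1 ∨ n = 2 ∨ n = 3 ∨ n = 4 ∨ n = 5 ∨ 6 ≤ n by omega) with h | h | h | h | h | h | h
  · subst h; simp
  · subst h; norm_num [eW]
  · subst h; norm_num [eW]
  · subst h; norm_num [eW]
  · subst h; norm_num [eW]
  · subst h; norm_num [eW]
  · rw [if_neg (by omega), if_neg (by omega), if_neg (by omega), if_neg (by omega), if_neg (by omega)]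
    simp

theorem u_sq_sub : u ^ 2 - 1 = (1 + X) * w := by
  unfold u w
  simp only [map_ofNat]
  ring

theorem W_eq (j : ℕ) : W (2 * j) = ∑ t ∈ range j, (u ^ 2) ^ t * w := by
  have h1 := geom_sum_mul (u ^ 2) j
  rw [u_sq_sub] at h1
  unfold W
  have h2 := J_mul
  rw [pow_mul, ← Finset.sum_mul]
  linear_combination (-J) * h1 + (∑ t ∈ range j, (u ^ 2) ^ t) * w * h2

theorem Dv_zero (e : ℕ → ℕ) : Dv e 0 := by
  intro j
  simp

theorem Dv_W (m : ℕ) (hm : m % 2 = 0) : Dv eW (W m) := by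
  obtain ⟨j, rfl⟩ : ∃ j, m = 2 * j := ⟨m / 2, by omega⟩
  rw [W_eq]
  induction j with
  | zero => simpa using Dv_zero eW
  | succ j ih =>
    rw [Finset.sum_range_succ]
    exact (ih (by omega)).add (Dv_w.u_pow good_eW j)

/-- states after reading zeros -/
noncomputable def Wz (m : ℕ) : ℕ → PowerSeries ℤ
  | 0 => 0
  | a + 1 => Th 0 (W m + u ^ m * Wz m a)

theorem Dv_step {m : ℕ} (hm : m % 2 = 0) {g : PowerSeries ℤ} (h : Dv eW g) : Dv eW (W m + u ^ m * g) := by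
  refine (Dv_W m hm).add ?_
  have := h.u_pow good_eW (m / 2)
  rwa [← pow_mul, show 2 * (m / 2) = m by omega] at this

theorem Dv_Wz (m : ℕ) (hm : m % 2 = 0) (a : ℕ) : Dv eW (Wz m a) := by
  induction a with
  | zero => exact Dv_zero eW
  | succ a ih => exact ((Dv_step hm ih).Th_W 0).V_W

theorem St_Wz (m a : ℕ) : St m 0 a (J + Wz m a) := by
  induction a with
  | zero =>
    have := St_zero m
    unfold Wz
    rwa [add_zero]
  | succ a ih =>
    have h := St_step ih 0 (by norm_num)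
    rw [mul_zero, add_zero] at h
    refine St_congr h ?_
    have e : u ^ m * (J + Wz m a) = J + (W m + u ^ m * Wz m a) := by
      unfold W
      ring
    rw [e, Th_add, EV_add, EV_add, EV_Th, EV_J, sec_one, if_pos rfl, Wz]

theorem St_one (m a : ℕ) : St m (4 ^ a) (a + 1) (Th 1 (W m + u ^ m * Wz m a)) := by
  have h := St_step (St_Wz m a) 1 (by norm_num)
  rw [zero_add, mul_one] at h
  refine St_congr h ?_
  have e : u ^ m * (J + Wz m a) = J + (W m + u ^ m * Wz m a) := by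
    unfold W
    ring
  rw [e, Th_add, EV_add, EV_Th, EV_J, sec_one, if_neg (by norm_num), zero_add]

/-- there is a good state -/
def Init (m : ℕ) : Prop := ∃ N b g, Mst g ∧ St m N b (C 64 * g)

theorem Mst_of {G : PowerSeries ℤ} (h : Dv eV G) (h0 : coeff 0 G % 64 = 0) (h1 : coeff 1 G % 128 = 64)
    (h2 : coeff 2 G % 256 = 0) (h3 : coeff 3 G % 256 = 0) : ∃ g, Mst g ∧ G = C 64 * g := by
  have hd : ∀ i, 4 ≤ i → ∃ z : ℤ, coeff i G = 64 * (2 ^ (2 * i - 5) * z) := by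
    intro i hi
    obtain ⟨z, hz⟩ := h i
    refine ⟨z, ?_⟩
    rw [hz]
    unfold eV
    rw [if_neg (by omega), show 2 * i + 1 = (2 * i - 5) + 6 by omega, pow_add]
    norm_num
    ring
  have hq : ∀ i, 4 ≤ i → ∃ z : ℤ, coeff i G / 64 = 2 ^ (2 * i - 5) * z := by
    intro i hi
    obtain ⟨z, hz⟩ := hd i hi
    exact ⟨z, by rw [hz]; omega⟩
  refine ⟨PowerSeries.mk fun i => coeff i G / 64, ⟨?_, ?_, ?_, ?_⟩, ?_⟩
  · intro i
    rw [coeff_mk]
    rcases (show i = 0 ∨ i = 1 ∨ i = 2 ∨ i = 3 ∨ 4 ≤ i by omega) with hi | hi | hi | hi | hi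
    · subst hi; simp [eP]
    · subst hi; simp [eP]
    · subst hi
      norm_num [eP]
      omega
    · subst hi
      norm_num [eP]
      omega
    · obtain ⟨z, hz⟩ := hq i hi
      rw [hz]
      exact Dvd.dvd.mul_right (pow_dvd_pow 2 (by unfold eP; omega)) z
  · rw [coeff_mk]
    omega
  · rw [coeff_mk]
    obtain ⟨z, hz⟩ := hq 4 (by norm_num)
    rw [hz]
    norm_num
  · rw [coeff_mk]
    obtain ⟨z, hz⟩ := hq 5 (by norm_num)
    rw [hz]
    norm_num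
    omega
  · ext i
    rw [coeff_C_mul, coeff_mk]
    rcases (show i = 0 ∨ i = 1 ∨ i = 2 ∨ i = 3 ∨ 4 ≤ i by omega) with hi | hi | hi | hi | hi
    · subst hi; omega
    · subst hi; omega
    · subst hi; omega
    · subst hi; omega
    · obtain ⟨z, hz⟩ := hd i hi
      rw [hz]
      omega

theorem of_Rp {l : List ℕ} {g : PowerSeries ℤ} (h : Rp l g) (n : ℕ) (hn : n < 14) :
    ∃ z : ℤ, coeff n g = (l.getD n 0 : ℕ) + 256 * z := by
  have h1 := h n hn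
  have h2 : (((coeff n g - (l.getD n 0 : ℕ) : ℤ)) : ZMod 256) = 0 := by
    push_cast
    rw [h1, sub_self]
  obtain ⟨z, hz⟩ := (ZMod.intCast_zmod_eq_zero_iff_dvd _ 256).1 h2
  exact ⟨z, by push_cast at hz; linarith⟩

theorem init_aux (m a : ℕ) (hm : m % 2 = 0) (G : List ℕ) (hG : Rp G (Th 1 (W m + u ^ m * Wz m a)))
    (h : G.getD 0 0 % 64 = 0 ∧ G.getD 1 0 % 128 = 64 ∧ G.getD 2 0 = 0 ∧ G.getD 3 0 = 0) : Init m := by
  obtain ⟨z0, e0⟩ := of_Rp hG 0 (by norm_num)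
  obtain ⟨z1, e1⟩ := of_Rp hG 1 (by norm_num)
  obtain ⟨z2, e2⟩ := of_Rp hG 2 (by norm_num)
  obtain ⟨z3, e3⟩ := of_Rp hG 3 (by norm_num)
  obtain ⟨g, hg, e⟩ := Mst_of ((Dv_step hm (Dv_Wz m hm a)).Th_W 1) (by omega) (by omega) (by omega) (by omega)
  exact ⟨4 ^ a, a + 1, g, hg, e ▸ St_one m a⟩

theorem init1 (m : ℕ) (hm : m % 2 = 0) (U W' W1 G : List ℕ) (hU : Rp U (u ^ m))
    (h1 : addT (mulT U jl) nl = W') (h2 : thT 0 W' = W1) (h3 : thT 1 (addT W' (mulT U W1)) = G)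
    (h : G.getD 0 0 % 64 = 0 ∧ G.getD 1 0 % 128 = 64 ∧ G.getD 2 0 = 0 ∧ G.getD 3 0 = 0) : Init m := by
  have r1 : Rp W' (W m) := by
    rw [← h1]
    exact (hU.mul rp_J).add rp_nJ
  have r2 : Rp W1 (Wz m 1) := by
    rw [← h2, Wz, Wz, mul_zero, add_zero]
    exact r1.th (Dv_W m hm) 0 (by norm_num)
  refine init_aux m 1 hm G ?_ h
  rw [← h3]
  exact (r1.add (hU.mul r2)).th (Dv_step hm (Dv_Wz m hm 1)) 1 (by norm_num)

theorem init2 (m : ℕ) (hm : m % 2 = 0) (U W' W1 W2 G : List ℕ) (hU : Rp U (u ^ m))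
    (h1 : addT (mulT U jl) nl = W') (h2 : thT 0 W' = W1) (h3 : thT 0 (addT W' (mulT U W1)) = W2)
    (h4 : thT 1 (addT W' (mulT U W2)) = G)
    (h : G.getD 0 0 % 64 = 0 ∧ G.getD 1 0 % 128 = 64 ∧ G.getD 2 0 = 0 ∧ G.getD 3 0 = 0) : Init m := by
  have r1 : Rp W' (W m) := by
    rw [← h1]
    exact (hU.mul rp_J).add rp_nJ
  have r2 : Rp W1 (Wz m 1) := by
    rw [← h2, Wz, Wz, mul_zero, add_zero]
    exact r1.th (Dv_W m hm) 0 (by norm_num)
  have r3 : Rp W2 (Wz m 2) := by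
    rw [← h3, Wz]
    exact (r1.add (hU.mul r2)).th (Dv_step hm (Dv_Wz m hm 1)) 0 (by norm_num)
  refine init_aux m 2 hm G ?_ h
  rw [← h4]
  exact (r1.add (hU.mul r3)).th (Dv_step hm (Dv_Wz m hm 2)) 1 (by norm_num)

def ol : List ℕ := [1, 0, 0, 0, 0, 0, 0, 0, 0, 0, 0, 0, 0, 0]

theorem rp1 : Rp [1, 4, 6, 4, 0, 0, 0, 0, 0, 0, 0, 0, 0, 0] (u ^ 1) := by
  intro n hn
  rw [pow_one]
  unfold u
  simp only [map_add, coeff_C_mul, coeff_X_pow, coeff_one, coeff_X]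
  interval_cases n <;> simp

theorem rp2 : Rp [1, 8, 28, 56, 68, 48, 16, 0, 0, 0, 0, 0, 0, 0] (u ^ 2) :=
  Rp.mul' [1, 4, 6, 4, 0, 0, 0, 0, 0, 0, 0, 0, 0, 0] [1, 4, 6, 4, 0, 0, 0, 0, 0, 0, 0, 0, 0, 0] [1, 8, 28, 56, 68, 48, 16, 0, 0, 0, 0, 0, 0, 0] (u ^ 1) (u ^ 1) (u ^ 2) rp1 rp1
    (by rw [← pow_add]) (by decide +kernel)

theorem rp4 : Rp [1, 16, 120, 48, 24, 224, 64, 64, 144, 128, 128, 0, 0, 0] (u ^ 4) :=
  Rp.mul' [1, 8, 28, 56, 68, 48, 16, 0, 0, 0, 0, 0, 0, 0] [1, 8, 28, 56, 68, 48, 16, 0, 0, 0, 0, 0, 0, 0] [1, 16, 120, 48, 24, 224, 64, 64, 144, 128, 128, 0, 0, 0] (u ^ 2) (u ^ 2) (u ^ 4) rp2 rp2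
    (by rw [← pow_add]) (by decide +kernel)

theorem rp8 : Rp [1, 32, 240, 96, 112, 192, 0, 128, 96, 0, 0, 0, 0, 0] (u ^ 8) :=
  Rp.mul' [1, 16, 120, 48, 24, 224, 64, 64, 144, 128, 128, 0, 0, 0] [1, 16, 120, 48, 24, 224, 64, 64, 144, 128, 128, 0, 0, 0] [1, 32, 240, 96, 112, 192, 0, 128, 96, 0, 0, 0, 0, 0] (u ^ 4) (u ^ 4) (u ^ 8) rp4 rp4
    (by rw [← pow_add]) (by decide +kernel)

theorem rp16 : Rp [1, 64, 224, 192, 224, 128, 0, 0, 192, 0, 0, 0, 0, 0] (u ^ 16) :=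
  Rp.mul' [1, 32, 240, 96, 112, 192, 0, 128, 96, 0, 0, 0, 0, 0] [1, 32, 240, 96, 112, 192, 0, 128, 96, 0, 0, 0, 0, 0] [1, 64, 224, 192, 224, 128, 0, 0, 192, 0, 0, 0, 0, 0] (u ^ 8) (u ^ 8) (u ^ 16) rp8 rp8
    (by rw [← pow_add]) (by decide +kernel)

theorem rp32 : Rp [1, 128, 192, 128, 192, 0, 0, 0, 128, 0, 0, 0, 0, 0] (u ^ 32) :=
  Rp.mul' [1, 64, 224, 192, 224, 128, 0, 0, 192, 0, 0, 0, 0, 0] [1, 64, 224, 192, 224, 128, 0, 0, 192, 0, 0, 0, 0, 0] [1, 128, 192, 128, 192, 0, 0, 0, 128, 0, 0, 0, 0, 0] (u ^ 16) (u ^ 16) (u ^ 32) rp16 rp16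
    (by rw [← pow_add]) (by decide +kernel)

theorem rp64 : Rp [1, 0, 128, 0, 128, 0, 0, 0, 0, 0, 0, 0, 0, 0] (u ^ 64) :=
  Rp.mul' [1, 128, 192, 128, 192, 0, 0, 0, 128, 0, 0, 0, 0, 0] [1, 128, 192, 128, 192, 0, 0, 0, 128, 0, 0, 0, 0, 0] [1, 0, 128, 0, 128, 0, 0, 0, 0, 0, 0, 0, 0, 0] (u ^ 32) (u ^ 32) (u ^ 64) rp32 rp32
    (by rw [← pow_add]) (by decide +kernel)

theorem rp128 : Rp [1, 0, 0, 0, 0, 0, 0, 0, 0, 0, 0, 0, 0, 0] (u ^ 128) :=
  Rp.mul' [1, 0, 128, 0, 128, 0, 0, 0, 0, 0, 0, 0, 0, 0] [1, 0, 128, 0, 128, 0, 0, 0, 0, 0, 0, 0, 0, 0] [1, 0, 0, 0, 0, 0, 0, 0, 0, 0, 0, 0, 0, 0] (u ^ 64) (u ^ 64) (u ^ 128) rp64 rp64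
    (by rw [← pow_add]) (by decide +kernel)

theorem rp6 : Rp [1, 24, 20, 232, 124, 144, 80, 64, 112, 0, 192, 128, 64, 0] (u ^ 6) :=
  Rp.mul' [1, 16, 120, 48, 24, 224, 64, 64, 144, 128, 128, 0, 0, 0] [1, 8, 28, 56, 68, 48, 16, 0, 0, 0, 0, 0, 0, 0] [1, 24, 20, 232, 124, 144, 80, 64, 112, 0, 192, 128, 64, 0] (u ^ 4) (u ^ 2) (u ^ 6) rp4 rp2
    (by rw [← pow_add]) (by decide +kernel)

theorem rp14 : Rp [1, 56, 4, 72, 172, 80, 80, 192, 16, 0, 64, 128, 192, 0] (u ^ 14) :=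
  Rp.mul' [1, 24, 20, 232, 124, 144, 80, 64, 112, 0, 192, 128, 64, 0] [1, 32, 240, 96, 112, 192, 0, 128, 96, 0, 0, 0, 0, 0] [1, 56, 4, 72, 172, 80, 80, 192, 16, 0, 64, 128, 192, 0] (u ^ 6) (u ^ 8) (u ^ 14) rp6 rp8
    (by rw [← pow_add]) (by decide +kernel)

theorem rp22 : Rp [1, 88, 244, 168, 220, 16, 80, 64, 176, 0, 192, 128, 64, 0] (u ^ 22) :=
  Rp.mul' [1, 56, 4, 72, 172, 80, 80, 192, 16, 0, 64, 128, 192, 0] [1, 32, 240, 96, 112, 192, 0, 128, 96, 0, 0, 0, 0, 0] [1, 88, 244, 168, 220, 16, 80, 64, 176, 0, 192, 128, 64, 0] (u ^ 14) (u ^ 8) (u ^ 22) rp14 rp8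
    (by rw [← pow_add]) (by decide +kernel)

theorem rp30 : Rp [1, 120, 228, 8, 12, 208, 80, 192, 80, 0, 64, 128, 192, 0] (u ^ 30) :=
  Rp.mul' [1, 88, 244, 168, 220, 16, 80, 64, 176, 0, 192, 128, 64, 0] [1, 32, 240, 96, 112, 192, 0, 128, 96, 0, 0, 0, 0, 0] [1, 120, 228, 8, 12, 208, 80, 192, 80, 0, 64, 128, 192, 0] (u ^ 22) (u ^ 8) (u ^ 30) rp22 rp8
    (by rw [← pow_add]) (by decide +kernel)

theorem rp38 : Rp [1, 152, 212, 104, 60, 144, 80, 64, 240, 0, 192, 128, 64, 0] (u ^ 38) :=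
  Rp.mul' [1, 120, 228, 8, 12, 208, 80, 192, 80, 0, 64, 128, 192, 0] [1, 32, 240, 96, 112, 192, 0, 128, 96, 0, 0, 0, 0, 0] [1, 152, 212, 104, 60, 144, 80, 64, 240, 0, 192, 128, 64, 0] (u ^ 30) (u ^ 8) (u ^ 38) rp30 rp8
    (by rw [← pow_add]) (by decide +kernel)

theorem rp46 : Rp [1, 184, 196, 200, 108, 80, 80, 192, 144, 0, 64, 128, 192, 0] (u ^ 46) :=
  Rp.mul' [1, 152, 212, 104, 60, 144, 80, 64, 240, 0, 192, 128, 64, 0] [1, 32, 240, 96, 112, 192, 0, 128, 96, 0, 0, 0, 0, 0] [1, 184, 196, 200, 108, 80, 80, 192, 144, 0, 64, 128, 192, 0] (u ^ 38) (u ^ 8) (u ^ 46) rp38 rp8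
    (by rw [← pow_add]) (by decide +kernel)

theorem rp54 : Rp [1, 216, 180, 40, 156, 16, 80, 64, 48, 0, 192, 128, 64, 0] (u ^ 54) :=
  Rp.mul' [1, 184, 196, 200, 108, 80, 80, 192, 144, 0, 64, 128, 192, 0] [1, 32, 240, 96, 112, 192, 0, 128, 96, 0, 0, 0, 0, 0] [1, 216, 180, 40, 156, 16, 80, 64, 48, 0, 192, 128, 64, 0] (u ^ 46) (u ^ 8) (u ^ 54) rp46 rp8
    (by rw [← pow_add]) (by decide +kernel)

theorem rp62 : Rp [1, 248, 164, 136, 204, 208, 80, 192, 208, 0, 64, 128, 192, 0] (u ^ 62) :=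
  Rp.mul' [1, 216, 180, 40, 156, 16, 80, 64, 48, 0, 192, 128, 64, 0] [1, 32, 240, 96, 112, 192, 0, 128, 96, 0, 0, 0, 0, 0] [1, 248, 164, 136, 204, 208, 80, 192, 208, 0, 64, 128, 192, 0] (u ^ 54) (u ^ 8) (u ^ 62) rp54 rp8
    (by rw [← pow_add]) (by decide +kernel)

theorem rp70 : Rp [1, 24, 148, 232, 252, 144, 80, 64, 112, 0, 192, 128, 64, 0] (u ^ 70) :=
  Rp.mul' [1, 248, 164, 136, 204, 208, 80, 192, 208, 0, 64, 128, 192, 0] [1, 32, 240, 96, 112, 192, 0, 128, 96, 0, 0, 0, 0, 0] [1, 24, 148, 232, 252, 144, 80, 64, 112, 0, 192, 128, 64, 0] (u ^ 62) (u ^ 8) (u ^ 70) rp62 rp8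
    (by rw [← pow_add]) (by decide +kernel)

theorem rp78 : Rp [1, 56, 132, 72, 44, 80, 80, 192, 16, 0, 64, 128, 192, 0] (u ^ 78) :=
  Rp.mul' [1, 24, 148, 232, 252, 144, 80, 64, 112, 0, 192, 128, 64, 0] [1, 32, 240, 96, 112, 192, 0, 128, 96, 0, 0, 0, 0, 0] [1, 56, 132, 72, 44, 80, 80, 192, 16, 0, 64, 128, 192, 0] (u ^ 70) (u ^ 8) (u ^ 78) rp70 rp8
    (by rw [← pow_add]) (by decide +kernel)

theorem rp86 : Rp [1, 88, 116, 168, 92, 16, 80, 64, 176, 0, 192, 128, 64, 0] (u ^ 86) :=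
  Rp.mul' [1, 56, 132, 72, 44, 80, 80, 192, 16, 0, 64, 128, 192, 0] [1, 32, 240, 96, 112, 192, 0, 128, 96, 0, 0, 0, 0, 0] [1, 88, 116, 168, 92, 16, 80, 64, 176, 0, 192, 128, 64, 0] (u ^ 78) (u ^ 8) (u ^ 86) rp78 rp8
    (by rw [← pow_add]) (by decide +kernel)

theorem rp94 : Rp [1, 120, 100, 8, 140, 208, 80, 192, 80, 0, 64, 128, 192, 0] (u ^ 94) :=
  Rp.mul' [1, 88, 116, 168, 92, 16, 80, 64, 176, 0, 192, 128, 64, 0] [1, 32, 240, 96, 112, 192, 0, 128, 96, 0, 0, 0, 0, 0] [1, 120, 100, 8, 140, 208, 80, 192, 80, 0, 64, 128, 192, 0] (u ^ 86) (u ^ 8) (u ^ 94) rp86 rp8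
    (by rw [← pow_add]) (by decide +kernel)

theorem rp102 : Rp [1, 152, 84, 104, 188, 144, 80, 64, 240, 0, 192, 128, 64, 0] (u ^ 102) :=
  Rp.mul' [1, 120, 100, 8, 140, 208, 80, 192, 80, 0, 64, 128, 192, 0] [1, 32, 240, 96, 112, 192, 0, 128, 96, 0, 0, 0, 0, 0] [1, 152, 84, 104, 188, 144, 80, 64, 240, 0, 192, 128, 64, 0] (u ^ 94) (u ^ 8) (u ^ 102) rp94 rp8
    (by rw [← pow_add]) (by decide +kernel)

theorem rp110 : Rp [1, 184, 68, 200, 236, 80, 80, 192, 144, 0, 64, 128, 192, 0] (u ^ 110) :=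
  Rp.mul' [1, 152, 84, 104, 188, 144, 80, 64, 240, 0, 192, 128, 64, 0] [1, 32, 240, 96, 112, 192, 0, 128, 96, 0, 0, 0, 0, 0] [1, 184, 68, 200, 236, 80, 80, 192, 144, 0, 64, 128, 192, 0] (u ^ 102) (u ^ 8) (u ^ 110) rp102 rp8
    (by rw [← pow_add]) (by decide +kernel)

theorem rp118 : Rp [1, 216, 52, 40, 28, 16, 80, 64, 48, 0, 192, 128, 64, 0] (u ^ 118) :=
  Rp.mul' [1, 184, 68, 200, 236, 80, 80, 192, 144, 0, 64, 128, 192, 0] [1, 32, 240, 96, 112, 192, 0, 128, 96, 0, 0, 0, 0, 0] [1, 216, 52, 40, 28, 16, 80, 64, 48, 0, 192, 128, 64, 0] (u ^ 110) (u ^ 8) (u ^ 118) rp110 rp8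
    (by rw [← pow_add]) (by decide +kernel)

theorem rp126 : Rp [1, 248, 36, 136, 76, 208, 80, 192, 208, 0, 64, 128, 192, 0] (u ^ 126) :=
  Rp.mul' [1, 216, 52, 40, 28, 16, 80, 64, 48, 0, 192, 128, 64, 0] [1, 32, 240, 96, 112, 192, 0, 128, 96, 0, 0, 0, 0, 0] [1, 248, 36, 136, 76, 208, 80, 192, 208, 0, 64, 128, 192, 0] (u ^ 118) (u ^ 8) (u ^ 126) rp118 rp8
    (by rw [← pow_add]) (by decide +kernel)

theorem rp_add (m0 : ℕ) (U : List ℕ) (h : Rp U (u ^ m0)) (hU : mulT ol U = U) (q : ℕ) :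
    Rp U (u ^ (128 * q + m0)) := by
  have h1 : ∀ q, Rp ol (u ^ (128 * q)) := by
    intro q
    induction q with
    | zero =>
      intro n hn
      rw [mul_zero, pow_zero, coeff_one]
      interval_cases n <;> decide +kernel
    | succ q ih =>
      refine Rp.mul' ol ol ol (u ^ (128 * q)) (u ^ 128) _ ih rp128 (by rw [← pow_add]; rfl) (by decide +kernel)
  rw [pow_add]
  exact Rp.mul' ol U U _ _ _ (h1 q) h rfl hU

theorem cls6 (q : ℕ) : Init (128 * q + 6) :=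
  init2 _ (by omega) [1, 24, 20, 232, 124, 144, 80, 64, 112, 0, 192, 128, 64, 0] [0, 24, 252, 236, 144, 0, 80, 240, 128, 128, 64, 64, 0, 0] [0, 136, 0, 0] [0, 232, 0, 0] [0, 64, 0, 0]
    (rp_add 6 [1, 24, 20, 232, 124, 144, 80, 64, 112, 0, 192, 128, 64, 0] rp6 (by decide +kernel) q) (by decide +kernel) (by decide +kernel) (by decide +kernel) (by decide +kernel) (by decide +kernel)

theorem cls14 (q : ℕ) : Init (128 * q + 14) :=
  init1 _ (by omega) [1, 56, 4, 72, 172, 80, 80, 192, 16, 0, 64, 128, 192, 0] [0, 56, 204, 124, 48, 32, 48, 144, 128, 128, 192, 192, 0, 0] [0, 200, 0, 0] [0, 64, 0, 0]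
    (rp_add 14 [1, 56, 4, 72, 172, 80, 80, 192, 16, 0, 64, 128, 192, 0] rp14 (by decide +kernel) q) (by decide +kernel) (by decide +kernel) (by decide +kernel) (by decide +kernel)

theorem cls22 (q : ℕ) : Init (128 * q + 22) :=
  init2 _ (by omega) [1, 88, 244, 168, 220, 16, 80, 64, 176, 0, 192, 128, 64, 0] [0, 88, 156, 12, 208, 64, 16, 48, 128, 128, 64, 64, 0, 0] [0, 8, 0, 0] [0, 104, 0, 0] [192, 64, 0, 0]
    (rp_add 22 [1, 88, 244, 168, 220, 16, 80, 64, 176, 0, 192, 128, 64, 0] rp22 (by decide +kernel) q) (by decide +kernel) (by decide +kernel) (by decide +kernel) (by decide +kernel) (by decide +kernel)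

theorem cls30 (q : ℕ) : Init (128 * q + 30) :=
  init1 _ (by omega) [1, 120, 228, 8, 12, 208, 80, 192, 80, 0, 64, 128, 192, 0] [0, 120, 108, 156, 112, 96, 240, 208, 128, 128, 192, 192, 0, 0] [0, 72, 0, 0] [192, 64, 0, 0]
    (rp_add 30 [1, 120, 228, 8, 12, 208, 80, 192, 80, 0, 64, 128, 192, 0] rp30 (by decide +kernel) q) (by decide +kernel) (by decide +kernel) (by decide +kernel) (by decide +kernel)

theorem cls38 (q : ℕ) : Init (128 * q + 38) :=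
  init2 _ (by omega) [1, 152, 212, 104, 60, 144, 80, 64, 240, 0, 192, 128, 64, 0] [0, 152, 60, 44, 16, 128, 208, 112, 128, 128, 64, 64, 0, 0] [0, 136, 0, 0] [0, 232, 0, 0] [128, 64, 0, 0]
    (rp_add 38 [1, 152, 212, 104, 60, 144, 80, 64, 240, 0, 192, 128, 64, 0] rp38 (by decide +kernel) q) (by decide +kernel) (by decide +kernel) (by decide +kernel) (by decide +kernel) (by decide +kernel)

theorem cls46 (q : ℕ) : Init (128 * q + 46) :=
  init1 _ (by omega) [1, 184, 196, 200, 108, 80, 80, 192, 144, 0, 64, 128, 192, 0] [0, 184, 12, 188, 176, 160, 176, 16, 128, 128, 192, 192, 0, 0] [0, 200, 0, 0] [128, 64, 0, 0]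
    (rp_add 46 [1, 184, 196, 200, 108, 80, 80, 192, 144, 0, 64, 128, 192, 0] rp46 (by decide +kernel) q) (by decide +kernel) (by decide +kernel) (by decide +kernel) (by decide +kernel)

theorem cls54 (q : ℕ) : Init (128 * q + 54) :=
  init2 _ (by omega) [1, 216, 180, 40, 156, 16, 80, 64, 48, 0, 192, 128, 64, 0] [0, 216, 220, 76, 80, 192, 144, 176, 128, 128, 64, 64, 0, 0] [0, 8, 0, 0] [0, 104, 0, 0] [64, 64, 0, 0]
    (rp_add 54 [1, 216, 180, 40, 156, 16, 80, 64, 48, 0, 192, 128, 64, 0] rp54 (by decide +kernel) q) (by decide +kernel) (by decide +kernel) (by decide +kernel) (by decide +kernel) (by decide +kernel)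

theorem cls62 (q : ℕ) : Init (128 * q + 62) :=
  init1 _ (by omega) [1, 248, 164, 136, 204, 208, 80, 192, 208, 0, 64, 128, 192, 0] [0, 248, 172, 220, 240, 224, 112, 80, 128, 128, 192, 192, 0, 0] [0, 72, 0, 0] [64, 64, 0, 0]
    (rp_add 62 [1, 248, 164, 136, 204, 208, 80, 192, 208, 0, 64, 128, 192, 0] rp62 (by decide +kernel) q) (by decide +kernel) (by decide +kernel) (by decide +kernel) (by decide +kernel)

theorem cls70 (q : ℕ) : Init (128 * q + 70) :=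
  init2 _ (by omega) [1, 24, 148, 232, 252, 144, 80, 64, 112, 0, 192, 128, 64, 0] [0, 24, 124, 108, 144, 0, 80, 240, 128, 128, 64, 64, 0, 0] [0, 136, 0, 0] [0, 232, 0, 0] [0, 64, 0, 0]
    (rp_add 70 [1, 24, 148, 232, 252, 144, 80, 64, 112, 0, 192, 128, 64, 0] rp70 (by decide +kernel) q) (by decide +kernel) (by decide +kernel) (by decide +kernel) (by decide +kernel) (by decide +kernel)

theorem cls78 (q : ℕ) : Init (128 * q + 78) :=
  init1 _ (by omega) [1, 56, 132, 72, 44, 80, 80, 192, 16, 0, 64, 128, 192, 0] [0, 56, 76, 252, 48, 32, 48, 144, 128, 128, 192, 192, 0, 0] [0, 200, 0, 0] [0, 64, 0, 0]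
    (rp_add 78 [1, 56, 132, 72, 44, 80, 80, 192, 16, 0, 64, 128, 192, 0] rp78 (by decide +kernel) q) (by decide +kernel) (by decide +kernel) (by decide +kernel) (by decide +kernel)

theorem cls86 (q : ℕ) : Init (128 * q + 86) :=
  init2 _ (by omega) [1, 88, 116, 168, 92, 16, 80, 64, 176, 0, 192, 128, 64, 0] [0, 88, 28, 140, 208, 64, 16, 48, 128, 128, 64, 64, 0, 0] [0, 8, 0, 0] [0, 104, 0, 0] [192, 64, 0, 0]
    (rp_add 86 [1, 88, 116, 168, 92, 16, 80, 64, 176, 0, 192, 128, 64, 0] rp86 (by decide +kernel) q) (by decide +kernel) (by decide +kernel) (by decide +kernel) (by decide +kernel) (by decide +kernel)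

theorem cls94 (q : ℕ) : Init (128 * q + 94) :=
  init1 _ (by omega) [1, 120, 100, 8, 140, 208, 80, 192, 80, 0, 64, 128, 192, 0] [0, 120, 236, 28, 112, 96, 240, 208, 128, 128, 192, 192, 0, 0] [0, 72, 0, 0] [192, 64, 0, 0]
    (rp_add 94 [1, 120, 100, 8, 140, 208, 80, 192, 80, 0, 64, 128, 192, 0] rp94 (by decide +kernel) q) (by decide +kernel) (by decide +kernel) (by decide +kernel) (by decide +kernel)

theorem cls102 (q : ℕ) : Init (128 * q + 102) :=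
  init2 _ (by omega) [1, 152, 84, 104, 188, 144, 80, 64, 240, 0, 192, 128, 64, 0] [0, 152, 188, 172, 16, 128, 208, 112, 128, 128, 64, 64, 0, 0] [0, 136, 0, 0] [0, 232, 0, 0] [128, 64, 0, 0]
    (rp_add 102 [1, 152, 84, 104, 188, 144, 80, 64, 240, 0, 192, 128, 64, 0] rp102 (by decide +kernel) q) (by decide +kernel) (by decide +kernel) (by decide +kernel) (by decide +kernel) (by decide +kernel)

theorem cls110 (q : ℕ) : Init (128 * q + 110) :=
  init1 _ (by omega) [1, 184, 68, 200, 236, 80, 80, 192, 144, 0, 64, 128, 192, 0] [0, 184, 140, 60, 176, 160, 176, 16, 128, 128, 192, 192, 0, 0] [0, 200, 0, 0] [128, 64, 0, 0]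
    (rp_add 110 [1, 184, 68, 200, 236, 80, 80, 192, 144, 0, 64, 128, 192, 0] rp110 (by decide +kernel) q) (by decide +kernel) (by decide +kernel) (by decide +kernel) (by decide +kernel)

theorem cls118 (q : ℕ) : Init (128 * q + 118) :=
  init2 _ (by omega) [1, 216, 52, 40, 28, 16, 80, 64, 48, 0, 192, 128, 64, 0] [0, 216, 92, 204, 80, 192, 144, 176, 128, 128, 64, 64, 0, 0] [0, 8, 0, 0] [0, 104, 0, 0] [64, 64, 0, 0]
    (rp_add 118 [1, 216, 52, 40, 28, 16, 80, 64, 48, 0, 192, 128, 64, 0] rp118 (by decide +kernel) q) (by decide +kernel) (by decide +kernel) (by decide +kernel) (by decide +kernel) (by decide +kernel)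

theorem cls126 (q : ℕ) : Init (128 * q + 126) :=
  init1 _ (by omega) [1, 248, 36, 136, 76, 208, 80, 192, 208, 0, 64, 128, 192, 0] [0, 248, 44, 92, 240, 224, 112, 80, 128, 128, 192, 192, 0, 0] [0, 72, 0, 0] [64, 64, 0, 0]
    (rp_add 126 [1, 248, 36, 136, 76, 208, 80, 192, 208, 0, 64, 128, 192, 0] rp126 (by decide +kernel) q) (by decide +kernel) (by decide +kernel) (by decide +kernel) (by decide +kernel)

theorem init_all (m : ℕ) (hm : m % 8 = 6) : Init m := by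
  have h := Nat.div_add_mod m 128
  have h2 : m % 128 % 8 = 6 := by omega
  have h3 : m % 128 < 128 := Nat.mod_lt _ (by norm_num)
  rw [← h]
  generalize m % 128 = r at h2 h3
  generalize m / 128 = q
  rcases (show r = 6 ∨ r = 14 ∨ r = 22 ∨ r = 30 ∨ r = 38 ∨ r = 46 ∨ r = 54 ∨ r = 62 ∨ r = 70 ∨ r = 78 ∨ r = 86
    ∨ r = 94 ∨ r = 102 ∨ r = 110 ∨ r = 118 ∨ r = 126 by omega) with h | h | h | h | h | h | h | h | h | h | h | h | h | h | h | h
    <;> subst h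
  · exact cls6 q
  · exact cls14 q
  · exact cls22 q
  · exact cls30 q
  · exact cls38 q
  · exact cls46 q
  · exact cls54 q
  · exact cls62 q
  · exact cls70 q
  · exact cls78 q
  · exact cls86 q
  · exact cls94 q
  · exact cls102 q
  · exact cls110 q
  · exact cls118 q
  · exact cls126 q

/-- the states gain factors `4` indefinitely -/
theorem reach (m : ℕ) (hm : m % 8 = 6) (t : ℕ) : ∃ N b g, Mst g ∧ St m N b (C (4 ^ t * 64) * g) := by
  induction t with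
  | zero =>
    obtain ⟨N, b, g, hg, h⟩ := init_all m hm
    exact ⟨N, b, g, hg, by simpa using h⟩
  | succ t ih =>
    obtain ⟨N, b, g, hg, h⟩ := ih
    obtain ⟨c, hc, g', hg', he⟩ := hg.step m (by omega)
    refine ⟨N + 4 ^ b * c, b + 1, g', hg', ?_⟩
    have h2 := St_step h c hc
    have e : Th c (u ^ m * (C (4 ^ t * 64) * g)) = C (4 ^ (t + 1) * 64) * g' := by
      rw [show u ^ m * (C (4 ^ t * 64) * g) = C (4 ^ t * 64) * (u ^ m * g) by ring, Th_C_mul, he, ← mul_assoc,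
        ← map_mul]
      congr 2
      ring
    rwa [e] at h2

theorem main (m : ℕ) (hm : m % 8 = 6) (B : ℕ) : ∃ n, (4 : ℤ) ^ B ∣ Q264.Quad.SZ m n := by
  obtain ⟨N, b, g, hg, h⟩ := reach m hm B
  refine ⟨N, ?_⟩
  rw [St_coeff h, coeff_C_mul, mul_assoc]
  exact dvd_mul_right _ _

end Q279.F4
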