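import Pool.Agent.Q279.F4.Basic

/-!
# Coloured 4-ary partitions: 2-adic estimates for the digit operator
-/

set_option autoImplicit false

namespace Q279.F4

open PowerSeries Finset

/-- coefficientwise divisibility by `2 ^ e j` -/
def Dv (e : ℕ → ℕ) (g : PowerSeries ℤ) : Prop := ∀ j, (2 : ℤ) ^ e j ∣ coeff j g

theorem Dv.add {e : ℕ → ℕ} {f g : PowerSeries ℤ} (hf : Dv e f) (hg : Dv e g) : Dv e (f + g) := by
  intro j
  rw [map_add]
  exact dvd_add (hf j) (hg j)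

theorem Dv.mono {e e' : ℕ → ℕ} {g : PowerSeries ℤ} (h : Dv e g) (he : ∀ j, e' j ≤ e j) : Dv e' g := by
  intro j
  exact (pow_dvd_pow 2 (he j)).trans (h j)

theorem Dv.C_mul {e : ℕ → ℕ} {g : PowerSeries ℤ} (h : Dv e g) (a : ℤ) : Dv e (C a * g) := by
  intro j
  rw [coeff_C_mul]
  exact Dvd.dvd.mul_left (h j) a

theorem Dv.shift {e : ℕ → ℕ} {g : PowerSeries ℤ} (h : Dv e g) (a k : ℕ) (hk : ∀ n, k ≤ n → e n ≤ e (n - k) + a) :
    Dv e (C (2 ^ a : ℤ) * (X ^ k * g)) := by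
  intro n
  rw [coeff_C_mul, coeff_X_pow_mul']
  split_ifs with h1
  · refine (pow_dvd_pow 2 (hk n h1)).trans ?_
    rw [pow_add, mul_comm]
    exact mul_dvd_mul_left _ (h _)
  · simp

/-- exponent patterns stable under multiplication by `u ^ 2` -/
structure Good (e : ℕ → ℕ) : Prop where
  s1 : ∀ k, 1 ≤ k → k ≤ 4 → ∀ n, k ≤ n → e n ≤ e (n - k) + 2
  s2 : ∀ k, 5 ≤ k → k ≤ 6 → ∀ n, k ≤ n → e n ≤ e (n - k) + 4

theorem u_sq : u ^ 2 = 1 + C 2 * (C (2 ^ 2) * (X ^ 1)) + C 7 * (C (2 ^ 2) * X ^ 2) + C 14 * (C (2 ^ 2) * X ^ 3)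
    + C 17 * (C (2 ^ 2) * X ^ 4) + C 3 * (C (2 ^ 4) * X ^ 5) + C (2 ^ 4) * X ^ 6 := by
  unfold u
  have h : ∀ a : ℕ, (C (a : ℤ) : PowerSeries ℤ) = (a : PowerSeries ℤ) := fun a => map_natCast C a
  simp only [map_pow, map_ofNat]
  ring

theorem Dv.u_sq {e : ℕ → ℕ} (he : Good e) {g : PowerSeries ℤ} (h : Dv e g) : Dv e (u ^ 2 * g) := by
  have e0 : u ^ 2 * g = g + C 2 * (C (2 ^ 2) * (X ^ 1 * g)) + C 7 * (C (2 ^ 2) * (X ^ 2 * g))
      + C 14 * (C (2 ^ 2) * (X ^ 3 * g)) + C 17 * (C (2 ^ 2) * (X ^ 4 * g)) + C 3 * (C (2 ^ 4) * (X ^ 5 * g))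
      + C (2 ^ 4) * (X ^ 6 * g) := by
    rw [Q279.F4.u_sq]
    ring
  rw [e0]
  refine Dv.add (Dv.add (Dv.add (Dv.add (Dv.add (Dv.add h ?_) ?_) ?_) ?_) ?_) ?_
  · exact (h.shift 2 1 (he.s1 1 (by norm_num) (by norm_num))).C_mul _
  · exact (h.shift 2 2 (he.s1 2 (by norm_num) (by norm_num))).C_mul _
  · exact (h.shift 2 3 (he.s1 3 (by norm_num) (by norm_num))).C_mul _
  · exact (h.shift 2 4 (he.s1 4 (by norm_num) (by norm_num))).C_mul _
  · exact (h.shift 4 5 (he.s2 5 (by norm_num) (by norm_num))).C_mul _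
  · exact h.shift 4 6 (he.s2 6 (by norm_num) (by norm_num))

theorem Dv.u_pow {e : ℕ → ℕ} (he : Good e) {g : PowerSeries ℤ} (h : Dv e g) (k : ℕ) :
    Dv e ((u ^ 2) ^ k * g) := by
  induction k with
  | zero => simpa using h
  | succ k ih =>
    rw [pow_succ', mul_assoc]
    exact ih.u_sq he

/-- the pattern of `𝓟` -/
def eP (j : ℕ) : ℕ := 2 * ((j + 2) / 4)

theorem good_eP : Good eP := by
  constructor
  · intro k h1 h2 n hn
    unfold eP
    omega
  · intro k h1 h2 n hn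
    unfold eP
    omega

/-- the pattern of `𝓦` -/
def eW (j : ℕ) : ℕ := 2 + 2 * (j / 4)

theorem good_eW : Good eW := by
  constructor
  · intro k h1 h2 n hn
    unfold eW
    omega
  · intro k h1 h2 n hn
    unfold eW
    omega

theorem dvd_th (c i : ℕ) : ∀ j, 2 ^ ((4 * i - j + 1) / 2) ∣ th c i j := by
  induction i with
  | zero => intro j; simp
  | succ i ih =>
    have key : ∀ (e a j k : ℕ), e ≤ a + (4 * i - j + 1) / 2 → 2 ^ e ∣ 2 ^ a * k * th c i j := by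
      intro e a j k h
      refine (pow_dvd_pow 2 h).trans ?_
      rw [pow_add, mul_assoc]
      exact mul_dvd_mul_left _ (Dvd.dvd.mul_left (ih j) k)
    intro j
    rcases j with _ | _ | _ | _ | j
    · simp [th]
    · simp only [th, zero_add]
      exact key _ 2 0 1 (by omega)
    · simp only [th, zero_add]
      exact dvd_add (key _ 2 1 1 (by omega)) (key _ 1 0 3 (by omega))
    · simp only [th, zero_add]
      exact dvd_add (dvd_add (key _ 2 2 1 (by omega)) (key _ 1 1 3 (by omega))) (key _ 2 0 1 (by omega))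
    · unfold th
      refine dvd_add (dvd_add (dvd_add (key _ 2 (j + 3) 1 (by omega)) (key _ 1 (j + 2) 3 (by omega)))
        (key _ 2 (j + 1) 1 (by omega))) ?_
      have := key (((4 * (i + 1) - (j + 4) + 1) / 2)) 0 j 1 (by omega)
      simpa using this

/-- general bound for `Th` -/
theorem Dv.Th' {e e' : ℕ → ℕ} {g : PowerSeries ℤ} (h : Dv e g) (c : ℕ)
    (he : ∀ i j, e' i ≤ e j + (4 * i - j + 1) / 2) : Dv e' (Th c g) := by
  intro i
  rw [coeff_Th]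
  refine Finset.dvd_sum fun j _ => ?_
  refine (pow_dvd_pow 2 (he i j)).trans ?_
  rw [pow_add]
  refine mul_dvd_mul (h j) ?_
  have := dvd_th c i j
  exact_mod_cast this

/-- output pattern for input in `𝓟` -/
def eM (i : ℕ) : ℕ := if i ≤ 1 then 0 else 2 * i

/-- output pattern for input in `𝓦` -/
def eV (i : ℕ) : ℕ := if i = 0 then 2 else 2 * i + 1

theorem Dv.Th_P {g : PowerSeries ℤ} (h : Dv eP g) (c : ℕ) : Dv eM (Th c g) := by
  refine h.Th' c fun i j => ?_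
  unfold eM eP
  split_ifs <;> omega

theorem Dv.Th_W {g : PowerSeries ℤ} (h : Dv eW g) (c : ℕ) : Dv eV (Th c g) := by
  refine h.Th' c fun i j => ?_
  unfold eV eW
  split_ifs <;> omega

theorem Dv.V_W {g : PowerSeries ℤ} (h : Dv eV g) : Dv eW g := by
  refine h.mono fun j => ?_
  unfold eV eW
  split_ifs <;> omega

/-- the family of good states -/
structure Mst (g : PowerSeries ℤ) : Prop where
  dv : Dv eP g
  odd : coeff 1 g % 2 = 1
  h4 : coeff 4 g % 8 = 0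
  h5 : coeff 5 g % 8 = 0

theorem u_four : ∃ R : PowerSeries ℤ, u ^ 4 = 1 + C 8 * R := by
  refine ⟨C 2 * X + C 15 * X ^ 2 + C 70 * X ^ 3 + C 227 * X ^ 4 + C 540 * X ^ 5 + C 968 * X ^ 6 + C 1320 * X ^ 7
    + C 1362 * X ^ 8 + C 1040 * X ^ 9 + C 560 * X ^ 10 + C 192 * X ^ 11 + C 32 * X ^ 12, ?_⟩
  unfold u
  simp only [map_ofNat]
  ring

theorem u_four_pow (q : ℕ) : ∃ R : PowerSeries ℤ, (u ^ 4) ^ q = 1 + C 8 * R := by
  obtain ⟨R, hR⟩ := u_four
  induction q with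
  | zero => exact ⟨0, by simp⟩
  | succ q ih =>
    obtain ⟨T, hT⟩ := ih
    refine ⟨R + T + C 8 * (T * R), ?_⟩
    rw [pow_succ, hT, hR]
    simp only [map_ofNat]
    ring

theorem u_mod (m : ℕ) (hm : m % 4 = 2) (g : PowerSeries ℤ) (j : ℕ) :
    (8 : ℤ) ∣ coeff j (u ^ m * g) - coeff j (u ^ 2 * g) := by
  obtain ⟨R, hR⟩ := u_four_pow (m / 4)
  have e : u ^ m * g = u ^ 2 * g + C 8 * (R * u ^ 2 * g) := by
    have e1 : u ^ m = (u ^ 4) ^ (m / 4) * u ^ 2 := by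
      rw [← pow_mul, ← pow_add]
      congr 1
      omega
    rw [e1, hR]
    ring
  rw [e, map_add, coeff_C_mul]
  exact ⟨coeff j (R * u ^ 2 * g), by rw [add_sub_cancel_left]⟩

/-- coefficients of `u ^ 2 * g` -/
theorem coeff_u_sq (g : PowerSeries ℤ) :
    coeff 0 (u ^ 2 * g) = coeff 0 g ∧
    coeff 1 (u ^ 2 * g) = coeff 1 g + 8 * coeff 0 g ∧
    coeff 2 (u ^ 2 * g) = coeff 2 g + 8 * coeff 1 g + 28 * coeff 0 g ∧
    coeff 3 (u ^ 2 * g) = coeff 3 g + 8 * coeff 2 g + 28 * coeff 1 g + 56 * coeff 0 g ∧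
    coeff 4 (u ^ 2 * g) = coeff 4 g + 8 * coeff 3 g + 28 * coeff 2 g + 56 * coeff 1 g + 68 * coeff 0 g ∧
    coeff 5 (u ^ 2 * g) = coeff 5 g + 8 * coeff 4 g + 28 * coeff 3 g + 56 * coeff 2 g + 68 * coeff 1 g
      + 48 * coeff 0 g := by
  have e0 : u ^ 2 * g = g + C 8 * (X ^ 1 * g) + C 28 * (X ^ 2 * g) + C 56 * (X ^ 3 * g) + C 68 * (X ^ 4 * g)
      + C 48 * (X ^ 5 * g) + C 16 * (X ^ 6 * g) := by
    unfold u
    simp only [map_ofNat]
    ring
  rw [e0]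
  simp only [map_add, coeff_C_mul, coeff_X_pow_mul']
  norm_num

/-- the main step: one digit gains a factor `4` -/
theorem Mst.step {g : PowerSeries ℤ} (h : Mst g) (m : ℕ) (hm : m % 4 = 2) :
    ∃ c < 4, ∃ g', Mst g' ∧ Th c (u ^ m * g) = C 4 * g' := by
  obtain ⟨k0, k1, k2, k3, k4, k5⟩ := coeff_u_sq g
  have m0 := u_mod m hm g 0
  have m1 := u_mod m hm g 1
  have m2 := u_mod m hm g 2
  have m3 := u_mod m hm g 3
  have m4 := u_mod m hm g 4
  have m5 := u_mod m hm g 5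
  have hodd := h.odd
  have h4 := h.h4
  have h5 := h.h5
  have d2 := h.dv 2
  have d3 := h.dv 3
  have hP : Dv eP (u ^ m * g) := by
    have := h.dv.u_pow good_eP (m / 2)
    rwa [← pow_mul, show 2 * (m / 2) = m by omega] at this
  have d6 := hP 6
  have d7 := hP 7
  simp only [eP] at d2 d3 d6 d7
  norm_num at d2 d3 d6 d7
  rw [k0] at m0
  rw [k1] at m1
  rw [k2] at m2
  rw [k3] at m3
  rw [k4] at m4
  rw [k5] at m5
  have hT : ∀ c, Dv eM (Th c (u ^ m * g)) := fun c => hP.Th_P c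
  have key : ∃ c : ℕ, c < 4 ∧ coeff 0 (Th c (u ^ m * g)) % 4 = 0 ∧ coeff 1 (Th c (u ^ m * g)) % 8 = 4 := by
    have q0 : coeff 0 (Th 0 (u ^ m * g)) % 4 = coeff 0 g % 4 ∧
        coeff 1 (Th 0 (u ^ m * g)) % 8 = 4 * (coeff 0 g + coeff 1 g) % 8 := by
      rw [coeff_Th, coeff_Th]
      simp only [Finset.sum_range_succ, Finset.sum_range_zero, th, Nat.choose]
      norm_num [-coeff_zero_eq_constantCoeff]
      omega
    have q1 : coeff 0 (Th 1 (u ^ m * g)) % 4 = (coeff 0 g + coeff 1 g) % 4 ∧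
        coeff 1 (Th 1 (u ^ m * g)) % 8 = 4 * (coeff 0 g) % 8 := by
      rw [coeff_Th, coeff_Th]
      simp only [Finset.sum_range_succ, Finset.sum_range_zero, th, Nat.choose]
      norm_num [-coeff_zero_eq_constantCoeff]
      omega
    have q2 : coeff 0 (Th 2 (u ^ m * g)) % 4 = (coeff 0 g + 2 * coeff 1 g) % 4 ∧
        coeff 1 (Th 2 (u ^ m * g)) % 8 = 4 * (coeff 0 g + coeff 1 g) % 8 := by
      rw [coeff_Th, coeff_Th]
      simp only [Finset.sum_range_succ, Finset.sum_range_zero, th, Nat.choose]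
      norm_num [-coeff_zero_eq_constantCoeff]
      omega
    have q3 : coeff 0 (Th 3 (u ^ m * g)) % 4 = (coeff 0 g + 3 * coeff 1 g) % 4 ∧
        coeff 1 (Th 3 (u ^ m * g)) % 8 = 4 * (coeff 0 g) % 8 := by
      rw [coeff_Th, coeff_Th]
      simp only [Finset.sum_range_succ, Finset.sum_range_zero, th, Nat.choose]
      norm_num [-coeff_zero_eq_constantCoeff]
      omega
    clear m0 m1 m2 m3 m4 m5 k0 k1 k2 k3 k4 k5 d2 d3 d6 d7 h4 h5
    rcases (show coeff 0 g % 4 = 0 ∨ coeff 0 g % 4 = 2 ∨ (coeff 0 g + coeff 1 g) % 4 = 0 ∨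
        (coeff 0 g + 3 * coeff 1 g) % 4 = 0 by omega) with h1 | h1 | h1 | h1
    · exact ⟨0, by norm_num, by omega, by omega⟩
    · exact ⟨2, by norm_num, by omega, by omega⟩
    · exact ⟨1, by norm_num, by omega, by omega⟩
    · exact ⟨3, by norm_num, by omega, by omega⟩
  obtain ⟨c, hc, t0, t1⟩ := key
  clear m0 m1 m2 m3 m4 m5 k0 k1 k2 k3 k4 k5 d2 d3 d6 d7 h4 h5
  have hd : ∀ i, 2 ≤ i → ∃ z : ℤ, coeff i (Th c (u ^ m * g)) = 4 * (2 ^ (2 * i - 2) * z) := by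
    intro i hi
    obtain ⟨z, hz⟩ := hT c i
    refine ⟨z, ?_⟩
    rw [hz]
    unfold eM
    rw [if_neg (by omega), show 2 * i = (2 * i - 2) + 2 by omega, pow_add, show 2 * i - 2 + 2 - 2 = 2 * i - 2 by omega]
    ring
  have hq : ∀ i, 2 ≤ i → ∃ z : ℤ, coeff i (Th c (u ^ m * g)) / 4 = 2 ^ (2 * i - 2) * z := by
    intro i hi
    obtain ⟨z, hz⟩ := hd i hi
    exact ⟨z, by rw [hz]; omega⟩
  refine ⟨c, hc, PowerSeries.mk fun i => coeff i (Th c (u ^ m * g)) / 4, ⟨?_, ?_, ?_, ?_⟩, ?_⟩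
  · intro i
    rw [coeff_mk]
    by_cases hi : i ≤ 1
    · unfold eP
      rw [show (i + 2) / 4 = 0 by omega]
      simp
    · obtain ⟨z, hz⟩ := hq i (by omega)
      rw [hz]
      exact Dvd.dvd.mul_right (pow_dvd_pow 2 (by unfold eP; omega)) z
  · rw [coeff_mk]
    omega
  · rw [coeff_mk]
    obtain ⟨z, hz⟩ := hq 4 (by norm_num)
    rw [hz]
    norm_num
    omega
  · rw [coeff_mk]
    obtain ⟨z, hz⟩ := hq 5 (by norm_num)
    rw [hz]
    norm_num
    omega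
  · ext i
    rw [coeff_C_mul, coeff_mk]
    rcases i with _ | _ | i
    · omega
    · simp only [zero_add]
      omega
    · obtain ⟨z, hz⟩ := hd (i + 1 + 1) (by omega)
      rw [hz]
      omega

end Q279.F4
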